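import Pool.Agent.W2helper95.NN.AmpAll

/-!
# MP_244be3_lc: an unconditional gap of exponent 5/2 over two hidden layers
-/

set_option autoImplicit false

namespace Pool.Agent.Results.MP_244be3_lc.ExponentFiveHalves

open Finset Pool.Agent.W2helper95.NN

/-- For every `q ≥ 1`, with `N = 4q·4^q` inputs, some function of the signs of the inputs has a
network with four hidden layers and `s = N + N + 2·4^q + 4^q = (8q+3)·4^q` neurons, while every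
network with one or two hidden layers, with arbitrary real weights, has `w` neurons in its last
hidden layer with `32^q ≤ 4q((4q+1)²+1)·w + 2^q`, so that `w` is at least a constant times
`s^(5/2) / (log s)^(11/2)`. -/
theorem result (q : ℕ) (hq : 1 ≤ q) :
    ∃ (N s : ℕ) (F : (Fin N → Bool) → Bool),
      N = 4 * q * 4 ^ q ∧ s = N + N + 2 * 4 ^ q + 4 ^ q ∧ s = (8 * q + 3) * 4 ^ q ∧
      (∃ (L1 : Layer N N) (L2 : Layer N N) (L3 : Layer N (2 * 4 ^ q))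
        (L4 : Layer (2 * 4 ^ q) (4 ^ q)) (c : Fin (4 ^ q) → ℝ) (d : ℝ),
        ∀ x, signFun F x = ∑ a, c a * L4.out (L3.out (L2.out (L1.out x))) a + d) ∧
      (∀ (w : ℕ) (L : Layer N w) (c : Fin w → ℝ) (d : ℝ),
        (∀ x, signFun F x = ∑ j, c j * L.out x j + d) →
        32 ^ q ≤ w * (4 * q * ((4 * q + 1) ^ 2 + 1)) + 2 ^ q ∧
        s ^ 5 ≤ (8 * q + 3) ^ 5 * (w * (4 * q * ((4 * q + 1) ^ 2 + 1)) + 2 ^ q) ^ 2) ∧
      (∀ (w₁ w₂ : ℕ) (L1 : Layer N w₁) (L2 : Layer w₁ w₂) (c : Fin w₂ → ℝ) (d : ℝ),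
        (∀ x, signFun F x = ∑ j, c j * L2.out (L1.out x) j + d) →
        32 ^ q ≤ w₂ * (4 * q * ((4 * q + 1) ^ 2 + 1)) + 2 ^ q ∧
        s ^ 5 ≤ (8 * q + 3) ^ 5 * (w₂ * (4 * q * ((4 * q + 1) ^ 2 + 1)) + 2 ^ q) ^ 2) := by
  obtain ⟨F, h1, h2, h3⟩ := amp_all (2 * q) (2 ^ q) (by omega) Nat.one_le_two_pow
  have e1 : (2 : ℕ) ^ (2 * q) = 4 ^ q := by
    rw [pow_mul]
    norm_num
  have e2 : ((2 : ℕ) ^ q) ^ 2 = 4 ^ q := by
    rw [← pow_mul, mul_comm, pow_mul]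
    norm_num
  refine ⟨(2 * q + 2 * q) * (2 ^ q) ^ 2, (8 * q + 3) * 4 ^ q, F, ?_, ?_, rfl, ?_, ?_, ?_⟩
  · rw [e2]
    ring
  · rw [e2]
    ring
  · rw [← two_mul (2 ^ (2 * q)), e1] at h1
    exact h1
  · intro w L c d hf
    exact amp_num q w (h2 w L c d hf)
  · intro w₁ w₂ L1 L2 c d hf
    exact amp_num q w₂ (h3 w₁ w₂ L1 L2 c d hf)

end Pool.Agent.Results.MP_244be3_lc.ExponentFiveHalves
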