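import Pool.Agent.W2helper95.NN.Rect

/-!
# MP_244be3_lc: an unconditional, almost quadratic gap between three and two hidden layers
-/

set_option autoImplicit false

namespace Pool.Agent.Results.MP_244be3_lc.QuadraticGap

open Finset Pool.Agent.W2helper95.NN

/-- For every `n ≥ 1` some function of the signs of `2n` real inputs has a network with three hidden
layers and `s = 2n + 3·2^n` neurons, while every network with at most two hidden layers, with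
arbitrary real weights, has at least `(s²/25 - 1) / ((2n+1)² + 1)` neurons in its last layer. -/
theorem result (n : ℕ) (hn : 1 ≤ n) : ∃ F : (Fin (n + n) → Bool) → Bool,
    (∃ (L1 : Layer (n + n) (n + n)) (L2 : Layer (n + n) (2 ^ n + 2 ^ n))
      (L3 : Layer (2 ^ n + 2 ^ n) (2 ^ n)) (c : Fin (2 ^ n) → ℝ) (d : ℝ),
      ∀ x, signFun F x = ∑ a, c a * L3.out (L2.out (L1.out x)) a + d) ∧
    (∀ (w : ℕ) (L : Layer (n + n) w) (c : Fin w → ℝ) (d : ℝ),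
      (∀ x, signFun F x = ∑ j, c j * L.out x j + d) →
      4 ^ n ≤ w * ((2 * n + 1) ^ 2 + 1) + 1 ∧
        (2 * n + 3 * 2 ^ n) ^ 2 ≤ 25 * (w * ((2 * n + 1) ^ 2 + 1) + 1)) ∧
    (∀ (w₁ w₂ : ℕ) (L1 : Layer (n + n) w₁) (L2 : Layer w₁ w₂) (c : Fin w₂ → ℝ) (d : ℝ),
      (∀ x, signFun F x = ∑ j, c j * L2.out (L1.out x) j + d) →
      4 ^ n ≤ w₂ * ((2 * n + 1) ^ 2 + 1) + 1 ∧
        (2 * n + 3 * 2 ^ n) ^ 2 ≤ 25 * (w₂ * ((2 * n + 1) ^ 2 + 1) + 1)) := by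
  obtain ⟨F, hF⟩ := exists_hard (n + n)
  have h4 : (2 : ℕ) ^ (n + n) = 4 ^ n := by
    rw [← two_mul, pow_mul]
    norm_num
  have hK : (n + n + 1) * (n + n + 1) + 1 = (2 * n + 1) ^ 2 + 1 := by ring
  have hsq : (2 * n + 3 * 2 ^ n) ^ 2 ≤ 25 * 4 ^ n := by
    have h5 : n < 2 ^ n := Nat.lt_two_pow_self
    have h6 : 2 * n + 3 * 2 ^ n ≤ 5 * 2 ^ n := by omega
    calc (2 * n + 3 * 2 ^ n) ^ 2 ≤ (5 * 2 ^ n) ^ 2 := Nat.pow_le_pow_left h6 2
      _ = 25 * 4 ^ n := by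
        rw [mul_pow, ← pow_mul, mul_comm n 2, pow_mul]
        norm_num
  refine ⟨F, ⟨U1 (n + n), R2 n, R3 F, fun _ => 1, 0, fun x => ?_⟩, ?_, ?_⟩
  · rw [add_zero]
    exact rect n F x
  · intro w L c d hf
    obtain ⟨h, h1, h2⟩ := one_layer_rep (by omega : 0 < n + n) F L c d hf
    have h3 := hF w h h1 h2
    rw [h4, hK] at h3
    exact ⟨h3, hsq.trans (Nat.mul_le_mul_left _ h3)⟩
  · intro w₁ w₂ L1 L2 c d hf
    obtain ⟨h, h1, h2⟩ := two_layer_rep (by omega : 0 < n + n) F L1 L2 c d hf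
    have h3 := hF w₂ h h1 h2
    rw [h4, hK] at h3
    exact ⟨h3, hsq.trans (Nat.mul_le_mul_left _ h3)⟩

end Pool.Agent.Results.MP_244be3_lc.QuadraticGap
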