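import Pool.Agent.W2helper95.NN.LowerRobust

/-!
# MP_244be3_lc: three hidden layers against two restricted hidden layers
-/

set_option autoImplicit false

namespace Pool.Agent.Results.MP_244be3_lc.TwoVersusThreeLayers

open Finset Pool.Agent.W2helper95.NN

/-- `ip n` has a network with three hidden layers of widths `2n, n, n` and tiny weights; one hidden
layer never computes it; two hidden layers need exponentially many neurons, even if a set `K` of up
to `α n` second-layer neurons is arbitrary (`α < 1/4`), unless the output weights of the other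
neurons are exponentially large or their weight vectors have exponentially many subset sums. -/
theorem result :
    (∀ n : ℕ, ∃ (L1 : Layer (n + n) (n + n)) (L2 : Layer (n + n) n) (L3 : Layer n n)
      (c : Fin n → ℝ),
      (∀ j i, L1.W j i = 0 ∨ L1.W j i = 1) ∧ (∀ j i, L2.W j i = 0 ∨ L2.W j i = 1) ∧
      (∀ j i, L3.W j i = 1) ∧ (∀ k, c k = 1 ∨ c k = -1) ∧
      ∀ x, ip n x = ∑ k, c k * L3.out (L2.out (L1.out x)) k) ∧
    (∀ n : ℕ, 1 ≤ n → ∀ (w : ℕ) (L : Layer (n + n) w) (c : Fin w → ℝ) (d : ℝ),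
      ¬ ∀ x, ip n x = ∑ j, c j * L.out x j + d) ∧
    (∀ n : ℕ, 1 ≤ n → ∀ (w₁ w₂ : ℕ) (L1 : Layer (n + n) w₁) (L2 : Layer w₁ w₂)
      (c : Fin w₂ → ℝ) (d : ℝ), (∀ x, ip n x = ∑ j, c j * L2.out (L1.out x) j + d) →
      (∀ J K : Finset (Fin w₂),
        2 ^ n < 2 * 4 ^ K.card * (1 + ∑ j ∈ J, (sums (L2.W j)).card) ∨
        Real.sqrt (2 ^ n) ≤ 4 * 4 ^ K.card * (n + 1) * ∑ j ∈ univ \ (J ∪ K), |c j|) ∧
      (∀ B r : ℕ, 1 ≤ B → 1 ≤ r → ∀ K : Finset (Fin w₂),
        (∀ j ∉ K, |c j| ≤ B ∨ (∀ i, ∃ z : ℤ, |z| ≤ B ∧ L2.W j i = z) ∨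
          (univ.image (L2.W j)).card ≤ r) →
        Real.sqrt (2 ^ n) ≤ 4 * 4 ^ K.card * (n + 1) * (B * w₂ * (w₁ + 1) ^ r))) := by
  refine ⟨fun n => ?_, fun n hn w L c d => one_layer n hn L c d,
    fun n hn w₁ w₂ L1 L2 c d hf => ⟨fun J K => lower_robust n hn L1 L2 c d hf J K,
      fun B r hB hr K hres => restricted_robust n hn B r hB hr L1 L2 c d hf K hres⟩⟩
  refine ⟨U1 (n + n), U2 n, U3 n, fun k => (-1 : ℝ) ^ k.val, ?_, ?_, fun j i => rfl, ?_, ?_⟩
  · intro j i
    show (if i = j then (1 : ℝ) else 0) = 0 ∨ (if i = j then (1 : ℝ) else 0) = 1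
    split_ifs <;> simp
  · intro j i
    show (if _ then (1 : ℝ) else 0) = 0 ∨ (if _ then (1 : ℝ) else 0) = 1
    split_ifs <;> simp
  · intro k
    exact neg_one_pow_eq_or ℝ k.val
  · intro x
    have := upper n x
    rw [add_zero] at this
    exact this

end Pool.Agent.Results.MP_244be3_lc.TwoVersusThreeLayers
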